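import Pool.Agent.W587.MX.Stm

set_option autoImplicit false

namespace Pool.Agent.W284.MX

open Pool.Agent.W587.MX
open Set Filter Topology Metric

theorem good : P2_GOOD := by
  intro f hf
  set S : ℝ → Set ℝ := fun s => (fun z : ℂ => ‖f z‖) '' closedBall 0 (max s 0) with hS
  have hbdd : ∀ s, BddAbove (S s) := fun s =>
    ((isCompact_closedBall (0 : ℂ) (max s 0)).image hf.continuous.norm).bddAbove
  have hne : ∀ s, (S s).Nonempty := fun s =>
    ⟨‖f 0‖, 0, mem_closedBall_self (le_max_right _ _), rfl⟩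
  have hmono : Monotone fun s => sSup (S s) := by
    intro s t hst
    exact csSup_le_csSup (hbdd t) (hne s)
      (image_mono (closedBall_subset_closedBall (max_le_max_right 0 hst)))
  have hle : ∀ (s : ℝ) (z : ℂ), ‖z‖ ≤ s → ‖f z‖ ≤ sSup (S s) := by
    intro s z hz
    refine le_csSup (hbdd s) ⟨z, ?_, rfl⟩
    rw [mem_closedBall_zero_iff]
    exact hz.trans (le_max_left _ _)
  refine ⟨fun s => sSup (S s), fun w _ => hle _ w le_rfl, ?_, ?_, ?_⟩
  · intro r hr
    obtain ⟨z, hz, hmax⟩ := Complex.exists_mem_frontier_isMaxOn_norm (f := f)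
      (U := ball (0 : ℂ) r) isBounded_ball ⟨0, mem_ball_self hr⟩ hf.diffContOnCl
    rw [frontier_ball _ hr.ne', mem_sphere_zero_iff_norm] at hz
    rw [closure_ball _ hr.ne'] at hmax
    refine ⟨z, hz, le_antisymm (hle r z hz.le) ?_⟩
    refine csSup_le (hne r) ?_
    rintro _ ⟨w, hw, rfl⟩
    rw [max_eq_left hr.le] at hw
    exact hmax hw
  · intro r hr
    exact hle r 0 (by rw [norm_zero]; exact hr.le)
  · intro r _
    have hae : ∀ᵐ x : ℝ, DifferentiableAt ℝ (fun s => sSup (S s)) x := hmono.ae_differentiableAt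
    have hd : Dense {x : ℝ | DifferentiableAt ℝ (fun s => sSup (S s)) x} :=
      MeasureTheory.Measure.dense_of_ae hae
    rw [frequently_iff]
    intro U hU
    rw [mem_nhdsWithin] at hU
    obtain ⟨V, hVo, hrV, hVU⟩ := hU
    have hWo : IsOpen (V ∩ Ioi r) := hVo.inter isOpen_Ioi
    have hWn : (V ∩ Ioi r).Nonempty := by
      obtain ⟨ε, hε, hb⟩ := Metric.isOpen_iff.1 hVo r hrV
      refine ⟨r + ε / 2, hb ?_, ?_⟩
      · rw [mem_ball, Real.dist_eq, add_sub_cancel_left, abs_of_pos (half_pos hε)]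
        linarith
      · rw [mem_Ioi]
        linarith
    obtain ⟨x, hxW, hx⟩ := hd.exists_mem_open hWo hWn
    first
      | exact ⟨x, hVU ⟨hxW.1, ne_of_gt hxW.2⟩, hx⟩
      | exact ⟨x, hVU ⟨hx.1, ne_of_gt hx.2⟩, hxW⟩

end Pool.Agent.W284.MX
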